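import Pool.Agent.Helper9.Hopf.Pre
import Pool.Agent.Helper8.GraphCount
import Pool.Agent.Helper58.HopfGeneric

set_option autoImplicit false

namespace Pool.Agent.Helper9.Hopf

open Filter Topology

/-- the action of the free group on a chain as a `MulAction`. -/
@[reducible] def actMul {m : ℕ} {Ω : Type} [LinearOrder Ω] (ζ : Fin m → (Ω ≃o Ω)) :
    MulAction (FreeGroup (Fin m)) Ω where
  smul g x := act ζ g x
  one_smul x := act_one ζ x
  mul_smul g h x := act_mul ζ g h x

/-- pointwise convergence of order automorphisms of the line implies convergence of words -/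
theorem tendsto_act {m : ℕ} {α : Type} {l : Filter α} {ζ : α → Fin m → (ℝ ≃o ℝ)}
    {ζ₀ : Fin m → (ℝ ≃o ℝ)} (h : ∀ i y, Tendsto (fun j => ζ j i y) l (𝓝 (ζ₀ i y)))
    {x : α → ℝ} {x₀ : ℝ} (hx : Tendsto x l (𝓝 x₀)) (g : FreeGroup (Fin m)) :
    Tendsto (fun j => act (ζ j) g (x j)) l (𝓝 (act ζ₀ g x₀)) := by
  induction g using freeGroup_induction_left with
  | h1 => simpa using hx
  | hof i g ih =>
    simp only [act_mul, act_of_apply]
    generalize act ζ₀ g x₀ = p at ih ⊢
    rw [tendsto_order]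
    constructor
    · intro a ha
      have h1 : (ζ₀ i).symm a < p := by
        rw [← (ζ₀ i).lt_iff_lt]; simpa using ha
      obtain ⟨y, hy1, hy2⟩ := exists_between h1
      have h2 : a < ζ₀ i y := by
        have := (ζ₀ i).lt_iff_lt.2 hy1
        simpa using this
      filter_upwards [(tendsto_order.1 (h i y)).1 a h2, (tendsto_order.1 ih).1 y hy2] with j h3 h4
      exact h3.trans ((ζ j i).lt_iff_lt.2 h4)
    · intro a ha
      have h1 : p < (ζ₀ i).symm a := by
        rw [← (ζ₀ i).lt_iff_lt]; simpa using ha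
      obtain ⟨y, hy1, hy2⟩ := exists_between h1
      have h2 : ζ₀ i y < a := by
        have := (ζ₀ i).lt_iff_lt.2 hy2
        simpa using this
      filter_upwards [(tendsto_order.1 (h i y)).2 a h2, (tendsto_order.1 ih).2 y hy1] with j h3 h4
      exact ((ζ j i).lt_iff_lt.2 h4).trans h3
  | hinv i g ih =>
    simp only [act_mul, act_inv_of]
    generalize act ζ₀ g x₀ = p at ih ⊢
    rw [tendsto_order]
    constructor
    · intro a ha
      have h1 : ζ₀ i a < p := by
        have := (ζ₀ i).lt_iff_lt.2 ha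
        simpa using this
      obtain ⟨y, hy1, hy2⟩ := exists_between h1
      filter_upwards [(tendsto_order.1 (h i a)).2 y hy1, (tendsto_order.1 ih).1 y hy2] with j h3 h4
      rw [← (ζ j i).lt_iff_lt]
      simpa using h3.trans h4
    · intro a ha
      have h1 : p < ζ₀ i a := by
        have := (ζ₀ i).lt_iff_lt.2 ha
        simpa using this
      obtain ⟨y, hy1, hy2⟩ := exists_between h1
      filter_upwards [(tendsto_order.1 (h i a)).1 y hy2, (tendsto_order.1 ih).2 y hy1] with j h3 h4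
      rw [← (ζ j i).lt_iff_lt]
      simpa using h4.trans h3

theorem continuous_act {m : ℕ} (ζ : Fin m → (ℝ ≃o ℝ)) (g : FreeGroup (Fin m)) :
    Continuous (fun x => act ζ g x) := (act ζ g).continuous

theorem countable_freeGroup (m : ℕ) : Countable (FreeGroup (Fin m)) := by
  have : Function.Surjective (FreeGroup.mk : List (Fin m × Bool) → FreeGroup (Fin m)) :=
    Quot.mk_surjective
  exact this.countable

theorem interior_fix_empty {m : ℕ} (ζ : Fin m → (ℝ ≃o ℝ))
    (hcount : ∀ (V : Finset ℝ) (E : Finset (Fin m × ℝ)), (∀ e ∈ E, e.2 ∈ V ∧ ζ e.1 e.2 ∈ V) →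
      ∀ Q : Finset ℚ, (∀ q ∈ Q, (q : ℝ) ∈ V) → E.card + Q.card ≤ V.card + 1)
    (c : FreeGroup (Fin m)) (hc : c ≠ 1) (u v : ℝ) (huv : u < v) :
    ∃ t, u < t ∧ t < v ∧ act ζ c t ≠ t := by
  classical
  by_contra hcon
  push Not at hcon
  obtain ⟨P, hP⟩ := Pool.Agent.Helper8.GraphCount.lasso c hc
  letI := actMul ζ
  obtain ⟨q₁, hq1, hq1'⟩ := exists_rat_btwn huv
  -- finite set of bad second points
  let B : Set ℝ := (fun p : FreeGroup (Fin m) × FreeGroup (Fin m) =>
    act ζ (p.2⁻¹ * p.1) (q₁ : ℝ)) '' ((P : Set (FreeGroup (Fin m))) ×ˢ (P : Set (FreeGroup (Fin m))))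
  have hB : B.Finite := ((P.finite_toSet).prod P.finite_toSet).image _
  have hinf : {q : ℚ | u < (q : ℝ) ∧ (q : ℝ) < v}.Infinite := by
    obtain ⟨r₁, hr1, hr1'⟩ := exists_rat_btwn huv
    obtain ⟨r₂, hr2, hr2'⟩ := exists_rat_btwn hr1'
    have hrr : r₁ < r₂ := by exact_mod_cast hr2
    refine (Set.Icc_infinite hrr).mono ?_
    intro q hq
    have h1 : (r₁ : ℝ) ≤ q := by exact_mod_cast hq.1
    have h2 : (q : ℝ) ≤ r₂ := by exact_mod_cast hq.2
    exact ⟨hr1.trans_le h1, h2.trans_lt hr2'⟩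
  have hfin : (((fun q : ℚ => (q : ℝ)) ⁻¹' B)).Finite :=
    hB.preimage (Rat.cast_injective.injOn)
  obtain ⟨q₂, hq2, hq2'⟩ := (hinf.diff hfin).nonempty
  have hq2B : (q₂ : ℝ) ∉ B := hq2'
  obtain ⟨V₁, E₁, hv1, hV1, hE1, hc1⟩ := hP ℝ (q₁ : ℝ) (hcon _ hq1 hq1')
  obtain ⟨V₂, E₂, hv2, hV2, hE2, hc2⟩ := hP ℝ (q₂ : ℝ) (hcon _ hq2.1 hq2.2)
  have hdisj : Disjoint V₁ V₂ := by
    rw [Finset.disjoint_left]
    intro x hx1 hx2
    obtain ⟨p1, hp1, hx1'⟩ := hV1 x hx1
    obtain ⟨p2, hp2, hx2'⟩ := hV2 x hx2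
    apply hq2B
    refine ⟨(p1, p2), ⟨hp1, hp2⟩, ?_⟩
    have e1 : act ζ p1 (q₁ : ℝ) = act ζ p2 (q₂ : ℝ) := by
      have h1 : x = act ζ p1 (q₁ : ℝ) := hx1'
      have h2 : x = act ζ p2 (q₂ : ℝ) := hx2'
      rw [← h1, h2]
    show act ζ (p2⁻¹ * p1) (q₁ : ℝ) = q₂
    rw [act_mul, e1, act_inv_act]
  have hdisjE : Disjoint E₁ E₂ := by
    rw [Finset.disjoint_left]
    intro e h1 h2
    exact (Finset.disjoint_left.1 hdisj) (hE1 e h1).1 (hE2 e h2).1
  have hne : q₁ ≠ q₂ := by
    intro h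
    subst h
    exact (Finset.disjoint_left.1 hdisj) hv1 hv2
  have := hcount (V₁ ∪ V₂) (E₁ ∪ E₂) (by
    intro e he
    rcases Finset.mem_union.1 he with h | h
    · exact ⟨Finset.mem_union_left _ (hE1 e h).1, Finset.mem_union_left _ (by
        have := (hE1 e h).2
        have h3 : FreeGroup.of e.1 • e.2 = ζ e.1 e.2 := act_of_apply ζ e.1 e.2
        rwa [h3] at this)⟩
    · exact ⟨Finset.mem_union_right _ (hE2 e h).1, Finset.mem_union_right _ (by
        have := (hE2 e h).2
        have h3 : FreeGroup.of e.1 • e.2 = ζ e.1 e.2 := act_of_apply ζ e.1 e.2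
        rwa [h3] at this)⟩) {q₁, q₂} (by
    intro q hq
    rcases Finset.mem_insert.1 hq with rfl | h
    · exact Finset.mem_union_left _ hv1
    · rw [Finset.mem_singleton] at h
      subst h
      exact Finset.mem_union_right _ hv2)
  rw [Finset.card_union_of_disjoint hdisj, Finset.card_union_of_disjoint hdisjE,
    Finset.card_pair hne] at this
  omega

/-- trivial stabilisers are dense -/
theorem dense_trivial {m : ℕ} (ζ : Fin m → (ℝ ≃o ℝ))
    (hcount : ∀ (V : Finset ℝ) (E : Finset (Fin m × ℝ)), (∀ e ∈ E, e.2 ∈ V ∧ ζ e.1 e.2 ∈ V) →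
      ∀ Q : Finset ℚ, (∀ q ∈ Q, (q : ℝ) ∈ V) → E.card + Q.card ≤ V.card + 1)
    (a b : ℝ) (hab : a < b) : ∃ t, a < t ∧ t < b ∧ stab ζ t = ⊥ := by
  have := countable_freeGroup m
  let S : {c : FreeGroup (Fin m) // c ≠ 1} → Set ℝ := fun c => {t | act ζ c.1 t ≠ t}
  have hopen : ∀ c, IsOpen (S c) := fun c =>
    isOpen_ne_fun (continuous_act ζ c.1) continuous_id
  have hdense : ∀ c, Dense (S c) := by
    intro c
    rw [dense_iff_inter_open]
    rintro U hU ⟨x, hx⟩
    obtain ⟨u, v, hxuv, huv⟩ := mem_nhds_iff_exists_Ioo_subset.1 (hU.mem_nhds hx)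
    obtain ⟨t, h1, h2, h3⟩ := interior_fix_empty ζ hcount c.1 c.2 u v (hxuv.1.trans hxuv.2)
    exact ⟨t, huv ⟨h1, h2⟩, h3⟩
  have hd := dense_iInter_of_isOpen hopen hdense
  obtain ⟨t, ht1, ht2⟩ := hd.exists_between hab
  refine ⟨t, ht2.1, ht2.2, ?_⟩
  rw [Subgroup.eq_bot_iff_forall]
  intro c hc
  by_contra hne
  exact (Set.mem_iInter.1 ht1 ⟨c, hne⟩) hc

/-- an order automorphism of the line from an expanding continuous map -/
theorem exists_iso (F : ℝ → ℝ) (hF : Continuous F) (η : ℝ) (hη : 0 < η)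
    (h : ∀ x y, x ≤ y → η * (y - x) ≤ F y - F x) : ∃ e : ℝ ≃o ℝ, ∀ x, e x = F x := by
  have hmono : StrictMono F := by
    intro x y hxy
    have := h x y hxy.le
    have h2 : 0 < η * (y - x) := mul_pos hη (sub_pos.2 hxy)
    linarith
  have htop : Tendsto F atTop atTop := by
    have h1 : Tendsto (fun y : ℝ => η * (y - 0) + F 0) atTop atTop := by
      refine tendsto_atTop_add_const_right _ _ ?_
      refine Tendsto.const_mul_atTop hη ?_
      simp only [sub_zero]
      exact tendsto_id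
    refine tendsto_atTop_mono' _ ?_ h1
    filter_upwards [eventually_ge_atTop 0] with y hy
    have := h 0 y hy
    linarith
  have hbot : Tendsto F atBot atBot := by
    have h1 : Tendsto (fun y : ℝ => F 0 - η * (0 - y)) atBot atBot := by
      have : (fun y : ℝ => F 0 - η * (0 - y)) = fun y => F 0 + η * y := by
        funext y; ring
      rw [this]
      refine tendsto_atBot_add_const_left _ _ ?_
      exact Tendsto.const_mul_atBot hη tendsto_id
    refine tendsto_atBot_mono' _ ?_ h1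
    filter_upwards [eventually_le_atBot 0] with y hy
    have := h y 0 hy
    linarith
  have hs : Function.Surjective F := hF.surjective htop hbot
  exact ⟨hmono.orderIsoOfSurjective F hs, fun x => rfl⟩

/-- slow actions moving a point up -/
theorem slow_move {m : ℕ} (hm : 2 ≤ m) (c : FreeGroup (Fin m)) (hc : c ≠ 1) (κ : ℝ)
    (hκ : 0 < κ) : ∃ ζ : Fin m → (ℝ ≃o ℝ),
      (∀ i x y, |(ζ i y - y) - (ζ i x - x)| ≤ κ * |y - x|) ∧ ∃ t, t < act ζ c t := by
  obtain ⟨φ, -, h2, -, h4⟩ := generic m hm (fun _ _ => 0) 0 (LipschitzWith.const _) 1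
    (min κ (1/2)) 1 one_pos (lt_min hκ (by norm_num)) one_pos
  have h2' : ∀ t t' i, |φ t i - φ t' i| ≤ κ * |t - t'| := fun t t' i =>
    (h2 t t' i).trans (mul_le_mul_of_nonneg_right (min_le_left _ _) (abs_nonneg _))
  have h2'' : ∀ t t' i, |φ t i - φ t' i| ≤ (1/2) * |t - t'| := fun t t' i =>
    (h2 t t' i).trans (mul_le_mul_of_nonneg_right (min_le_right _ _) (abs_nonneg _))
  have hiso : ∀ i, ∃ e : ℝ ≃o ℝ, ∀ x, e x = x + φ x i := by
    intro i
    refine exists_iso (fun x => x + φ x i) ?_ (1/2) (by norm_num) ?_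
    · refine continuous_id.add ?_
      have : LipschitzWith (1/2) (fun x => φ x i) := by
        refine LipschitzWith.of_dist_le_mul ?_
        intro x y
        rw [Real.dist_eq, Real.dist_eq]
        simpa using h2'' x y i
      exact this.continuous
    · intro x y hxy
      have := h2'' y x i
      rw [abs_of_nonneg (sub_nonneg.2 hxy)] at this
      have h5 := neg_le_of_abs_le this
      linarith
  choose ζ hζ using hiso
  have hcount : ∀ (V : Finset ℝ) (E : Finset (Fin m × ℝ)), (∀ e ∈ E, e.2 ∈ V ∧ ζ e.1 e.2 ∈ V) →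
      ∀ Q : Finset ℚ, (∀ q ∈ Q, (q : ℝ) ∈ V) → E.card + Q.card ≤ V.card + 1 := by
    intro V E hE
    refine h4 1 le_rfl le_rfl V E ?_
    intro e he
    refine ⟨(hE e he).1, ?_⟩
    have := (hE e he).2
    rw [hζ] at this
    simpa using this
  obtain ⟨t, -, -, ht⟩ := dense_trivial ζ hcount 0 1 one_pos
  have hne : act ζ c t ≠ t := by
    intro h
    have : c ∈ stab ζ t := h
    rw [ht, Subgroup.mem_bot] at this
    exact hc this
  have hslow : ∀ i x y, |(ζ i y - y) - (ζ i x - x)| ≤ κ * |y - x| := by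
    intro i x y
    rw [hζ, hζ]
    have := h2' y x i
    simpa using this
  rcases lt_or_gt_of_ne hne with hlt | hgt
  · -- conjugate
    let ν : ℝ → ℝ := fun x => -x
    let ζ' : Fin m → (ℝ ≃o ℝ) := fun i =>
      { toFun := fun x => -(ζ i (-x))
        invFun := fun x => -((ζ i).symm (-x))
        left_inv := fun x => by simp
        right_inv := fun x => by simp
        map_rel_iff' := by
          intro x y
          show -(ζ i (-x)) ≤ -(ζ i (-y)) ↔ x ≤ y
          rw [neg_le_neg_iff, (ζ i).le_iff_le, neg_le_neg_iff] }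
    have hz' : ∀ i x, ζ' i x = -(ζ i (-x)) := fun i x => rfl
    refine ⟨ζ', ?_, -t, ?_⟩
    · intro i x y
      rw [hz', hz']
      have := hslow i (-x) (-y)
      rw [show -(ζ i (-y)) - y - (-(ζ i (-x)) - x) = -((ζ i (-y) - (-y)) - (ζ i (-x) - (-x))) by ring,
        abs_neg]
      rwa [show (-y - -x) = -(y - x) by ring, abs_neg] at this
    · have hg : ∀ g x, act ζ' g (-x) = -(act ζ g x) := by
        intro g
        induction g using freeGroup_induction_left with
        | h1 => intro x; simp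
        | hof i g ih => intro x; rw [act_mul, act_mul, ih, act_of_apply, act_of_apply, hz']; simp
        | hinv i g ih =>
          intro x
          rw [act_mul, act_mul, ih, act_inv_of, act_inv_of]
          show -((ζ i).symm (- -(act ζ g x))) = _
          simp
      rw [hg]
      exact neg_lt_neg hlt
  · exact ⟨ζ, hslow, t, hgt⟩

end Pool.Agent.Helper9.Hopf
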