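import Pool.Agent.Helper1.Hopf.Dense
import Pool.Agent.Helper8.Interp

set_option autoImplicit false

namespace Pool.Agent.Helper9.Hopf

open Filter Topology

/-- realisation of a finite pattern on the line by piecewise linear maps -/
theorem exists_realise {m : ℕ} {Ω : Type} [LinearOrder Ω] (z : Fin m → (Ω ≃o Ω)) (x : Ω)
    (F : Finset (FreeGroup (Fin m))) :
    ∃ Φ : Fin m → ℝ → ℝ, (∀ i, (∃ η > 0, ∀ x y, x ≤ y → η * (y - x) ≤ Φ i y - Φ i x) ∧
      (∃ K > 0, ∀ x y, |(Φ i y - y) - (Φ i x - x)| ≤ K * |y - x|) ∧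
      (∃ L c₁ c₂, ∀ x, (x ≤ -L → Φ i x = x + c₁) ∧ (L ≤ x → Φ i x = x + c₂))) ∧
      ∀ ζ : Fin m → (ℝ ≃o ℝ), (∀ i x, ζ i x = Φ i x) → Coarse F ζ 0 z x := by
  classical
  let T : Finset (FreeGroup (Fin m)) :=
    F.biUnion (fun g => ((List.tails g.toWord).map FreeGroup.mk).toFinset)
  have hT : ∀ g ∈ F, ∀ L, L <:+ g.toWord → FreeGroup.mk L ∈ T := by
    intro g hg L hL
    refine Finset.mem_biUnion.2 ⟨g, hg, ?_⟩
    rw [List.mem_toFinset, List.mem_map]
    exact ⟨L, (List.mem_tails _ _).2 hL, rfl⟩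
  let S : Finset Ω := T.image (fun g => act z g x)
  have hS : ∀ g ∈ T, act z g x ∈ S := fun g hg => Finset.mem_image.2 ⟨g, hg, rfl⟩
  let e : Ω → ℝ := fun p => ((S.filter (fun q => q < p)).card : ℝ) -
    ((S.filter (fun q => q < x)).card : ℝ)
  have hemono : ∀ p ∈ S, ∀ q, p < q → e p < e q := by
    intro p hp q hpq
    have : (S.filter (fun r => r < p)).card < (S.filter (fun r => r < q)).card := by
      apply Finset.card_lt_card
      rw [Finset.ssubset_iff_of_subset]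
      · exact ⟨p, by simp [hp, hpq], by simp⟩
      · intro r hr
        simp only [Finset.mem_filter] at hr ⊢
        exact ⟨hr.1, hr.2.trans hpq⟩
    simp only [e]
    have h2 : ((S.filter (fun r => r < p)).card : ℝ) < ((S.filter (fun r => r < q)).card : ℝ) := by
      exact_mod_cast this
    linarith
  have hex : e x = 0 := by simp [e]
  have hele : ∀ p ∈ S, ∀ q ∈ S, e p ≤ e q → p ≤ q := by
    intro p hp q hq h
    by_contra hc
    have := hemono q hq p (not_le.1 hc)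
    linarith
  have heinj : ∀ p ∈ S, ∀ q ∈ S, e p = e q → p = q := by
    intro p hp q hq h
    exact le_antisymm (hele p hp q hq h.le) (hele q hq p hp h.ge)
  have key : ∀ i : Fin m, ∃ Ψ : ℝ → ℝ, (∀ p ∈ S, z i p ∈ S → Ψ (e p) = e (z i p)) ∧
      (∃ η > 0, ∀ x y, x ≤ y → η * (y - x) ≤ Ψ y - Ψ x) ∧
      (∃ K > 0, ∀ x y, |(Ψ y - y) - (Ψ x - x)| ≤ K * |y - x|) ∧
      (∃ L c₁ c₂, ∀ x, (x ≤ -L → Ψ x = x + c₁) ∧ (L ≤ x → Ψ x = x + c₂)) := by
    intro i
    let f : ℝ → ℝ := fun y => if h : ∃ p ∈ S, z i p ∈ S ∧ e p = y then e (z i h.choose) else 0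
    have hf : ∀ p ∈ S, z i p ∈ S → f (e p) = e (z i p) := by
      intro p hp hzp
      have h : ∃ q ∈ S, z i q ∈ S ∧ e q = e p := ⟨p, hp, hzp, rfl⟩
      simp only [f]
      rw [dif_pos h]
      have h1 := h.choose_spec
      rw [heinj _ h1.1 p hp h1.2.2]
    obtain ⟨Ψ, h1, h2, h3, h4⟩ := Pool.Agent.Helper8.Interp.interp
      ((S.filter (fun p => z i p ∈ S)).image e) f (by
      intro a ha b hb hab
      obtain ⟨p, hp, rfl⟩ := Finset.mem_image.1 ha
      obtain ⟨q, hq, rfl⟩ := Finset.mem_image.1 hb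
      rw [Finset.mem_filter] at hp hq
      rw [hf p hp.1 hp.2, hf q hq.1 hq.2]
      refine hemono _ hp.2 _ ((z i).lt_iff_lt.2 ?_)
      by_contra hc
      rcases (not_lt.1 hc).lt_or_eq with h | h
      · have := hemono q hq.1 p h
        linarith
      · rw [h] at hab; exact lt_irrefl _ hab)
    refine ⟨Ψ, ?_, h2, h3, h4⟩
    intro p hp hzp
    rw [h1 (e p) (Finset.mem_image.2 ⟨p, Finset.mem_filter.2 ⟨hp, hzp⟩, rfl⟩), hf p hp hzp]
  choose Φ hΦ1 hΦ2 using key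
  refine ⟨Φ, hΦ2, ?_⟩
  intro ζ hζ
  have main : ∀ L : List (Fin m × Bool), (∀ L', L' <:+ L → FreeGroup.mk L' ∈ T) →
      act ζ (FreeGroup.mk L) 0 = e (act z (FreeGroup.mk L) x) := by
    intro L
    induction L with
    | nil =>
      intro _
      rw [← FreeGroup.one_eq_mk, act_one, act_one, hex]
    | cons a L ih =>
      intro hL
      have hL1 := ih (fun L' h => hL L' (h.trans (List.suffix_cons _ _)))
      have hp : act z (FreeGroup.mk L) x ∈ S := hS _ (hL L (List.suffix_cons _ _))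
      have hq : act z (FreeGroup.mk (a :: L)) x ∈ S := hS _ (hL _ (List.suffix_refl _))
      obtain ⟨i, b⟩ := a
      cases b with
      | true =>
        have h1 : (FreeGroup.mk ((i, true) :: L)) = FreeGroup.of i * FreeGroup.mk L := by
          rw [FreeGroup.of, FreeGroup.mul_mk]; rfl
        rw [h1, act_mul, act_of_apply] at hq ⊢
        rw [act_mul, act_of_apply, hL1, hζ, hΦ1 i _ hp hq]
      | false =>
        have h1 : (FreeGroup.mk ((i, false) :: L)) = (FreeGroup.of i)⁻¹ * FreeGroup.mk L := by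
          rw [FreeGroup.of, FreeGroup.inv_mk, FreeGroup.mul_mk]; rfl
        rw [h1, act_mul, act_inv_of] at hq ⊢
        rw [act_mul, act_inv_of, hL1, OrderIso.symm_apply_eq, hζ]
        rw [hΦ1 i _ hq (by simpa using hp)]
        simp
  intro g hg h hh hle
  have hmain : ∀ g ∈ F, act ζ g 0 = e (act z g x) ∧ act z g x ∈ S := by
    intro g hg
    have := main g.toWord (fun L' hL' => hT g hg L' hL')
    have h2 := hS _ (hT g hg g.toWord (List.suffix_refl _))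
    rw [FreeGroup.mk_toWord] at this h2
    exact ⟨this, h2⟩
  rw [(hmain g hg).1, (hmain h hh).1] at hle
  exact hele _ (hmain g hg).2 _ (hmain h hh).2 hle

/-- words only see a bounded neighbourhood -/
theorem act_far {m : ℕ} (B : ℝ) (g : FreeGroup (Fin m)) :
    ∃ C : ℝ, 0 ≤ C ∧ ∀ (ζ ζ' : Fin m → (ℝ ≃o ℝ)) (U : Set ℝ), (∀ i, ∀ u ∈ U, ζ i u = ζ' i u) →
      (∀ i u, |ζ i u - u| ≤ B) → ∀ τ, Metric.closedBall τ C ⊆ U →
        act ζ g τ = act ζ' g τ ∧ |act ζ g τ - τ| ≤ C := by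
  induction g using freeGroup_induction_left with
  | h1 => exact ⟨0, le_rfl, fun ζ ζ' U _ _ τ _ => by simp⟩
  | hof i g ih =>
    obtain ⟨C, hC0, hC⟩ := ih
    refine ⟨C + |B|, by positivity, ?_⟩
    intro ζ ζ' U h1 h2 τ h3
    obtain ⟨h4, h5⟩ := hC ζ ζ' U h1 h2 τ
      ((Metric.closedBall_subset_closedBall (by linarith [abs_nonneg B])).trans h3)
    have hB : B ≤ |B| := le_abs_self B
    have h6 : act ζ g τ ∈ U := by
      apply h3
      rw [Metric.mem_closedBall, Real.dist_eq]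
      linarith [abs_nonneg B]
    rw [act_mul, act_mul, act_of_apply, act_of_apply, ← h4]
    refine ⟨h1 i _ h6, ?_⟩
    have h7 := h2 i (act ζ g τ)
    have h8 := abs_add_le (ζ i (act ζ g τ) - act ζ g τ) (act ζ g τ - τ)
    rw [sub_add_sub_cancel] at h8
    linarith
  | hinv i g ih =>
    obtain ⟨C, hC0, hC⟩ := ih
    refine ⟨C + |B|, by positivity, ?_⟩
    intro ζ ζ' U h1 h2 τ h3
    obtain ⟨h4, h5⟩ := hC ζ ζ' U h1 h2 τ
      ((Metric.closedBall_subset_closedBall (by linarith [abs_nonneg B])).trans h3)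
    have hB : B ≤ |B| := le_abs_self B
    rw [act_mul, act_mul, act_inv_of, act_inv_of, ← h4]
    have h7 := h2 i ((ζ i).symm (act ζ g τ))
    rw [OrderIso.apply_symm_apply] at h7
    have h8 := abs_add_le ((ζ i).symm (act ζ g τ) - act ζ g τ) (act ζ g τ - τ)
    rw [sub_add_sub_cancel] at h8
    rw [abs_sub_comm] at h7
    have h9 : |(ζ i).symm (act ζ g τ) - τ| ≤ C + |B| := by linarith
    refine ⟨?_, h9⟩
    have h6 : (ζ i).symm (act ζ g τ) ∈ U := by
      apply h3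
      rw [Metric.mem_closedBall, Real.dist_eq]
      exact h9
    have h10 := h1 i _ h6
    rw [OrderIso.apply_symm_apply] at h10
    rw [eq_comm, OrderIso.symm_apply_eq]
    exact h10

theorem act_far_finset {m : ℕ} (B : ℝ) (F : Finset (FreeGroup (Fin m))) :
    ∃ C : ℝ, 0 ≤ C ∧ ∀ (ζ ζ' : Fin m → (ℝ ≃o ℝ)) (U : Set ℝ), (∀ i, ∀ u ∈ U, ζ i u = ζ' i u) →
      (∀ i u, |ζ i u - u| ≤ B) → ∀ τ, Metric.closedBall τ C ⊆ U → ∀ g ∈ F,
        act ζ g τ = act ζ' g τ := by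
  classical
  induction F using Finset.induction_on with
  | empty => exact ⟨0, le_rfl, by simp⟩
  | insert a F ha ih =>
    obtain ⟨C, hC0, hC⟩ := ih
    obtain ⟨C', hC0', hC'⟩ := act_far B a
    refine ⟨max C C', le_max_of_le_left hC0, ?_⟩
    intro ζ ζ' U h1 h2 τ h3 g hg
    rcases Finset.mem_insert.1 hg with rfl | hg
    · exact (hC' ζ ζ' U h1 h2 τ ((Metric.closedBall_subset_closedBall (le_max_right _ _)).trans
        h3)).1
    · exact hC ζ ζ' U h1 h2 τ ((Metric.closedBall_subset_closedBall (le_max_left _ _)).trans h3)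
        g hg

/-- badness is open -/
theorem eventually_bad {m : ℕ} (R : LocFam m m) {α : Type} {l : Filter α}
    {ζ : α → Fin m → (ℝ ≃o ℝ)} {ζ₀ : Fin m → (ℝ ≃o ℝ)}
    (h : ∀ i y, Tendsto (fun j => ζ j i y) l (𝓝 (ζ₀ i y)))
    {x : α → ℝ} {x₀ : ℝ} (hx : Tendsto x l (𝓝 x₀)) (hbad : ¬ Good R ζ₀ x₀) :
    ∀ᶠ j in l, ¬ Good R (ζ j) (x j) := by
  obtain ⟨F, hF⟩ := exists_goodWindow R
  have h1 : ∀ᶠ j in l, ∀ p ∈ F ×ˢ F, act ζ₀ p.2 x₀ < act ζ₀ p.1 x₀ →
      act (ζ j) p.2 (x j) < act (ζ j) p.1 (x j) := by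
    rw [Filter.eventually_all_finset]
    intro p _
    by_cases hp : act ζ₀ p.2 x₀ < act ζ₀ p.1 x₀
    · have := (tendsto_act h hx p.2).eventually_lt (tendsto_act h hx p.1) hp
      filter_upwards [this] with j hj _ using hj
    · exact Filter.Eventually.of_forall fun j h => absurd h hp
  filter_upwards [h1] with j hj hg
  refine hbad (hF ℝ ℝ (ζ j) ζ₀ (x j) x₀ ?_ hg)
  intro g hg k hk hle
  by_contra hc
  exact absurd (hj (g, k) (Finset.mem_product.2 ⟨hg, hk⟩) (not_le.1 hc)) (not_lt.2 hle)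

/-- goodness far out -/
theorem exists_farGood {m : ℕ} (R : LocFam m m) (κ : ℝ)
    (hslow : ∀ ζ : Fin m → (ℝ ≃o ℝ),
      (∀ i x y, |(ζ i y - y) - (ζ i x - x)| ≤ κ * |y - x|) → R.map ℝ ζ = ζ) (B : ℝ) :
    ∃ C : ℝ, 0 ≤ C ∧ ∀ (ζ ζ' : Fin m → (ℝ ≃o ℝ)) (U : Set ℝ), (∀ i, ∀ u ∈ U, ζ i u = ζ' i u) →
      (∀ i u, |ζ i u - u| ≤ B) → (∀ i x y, |(ζ' i y - y) - (ζ' i x - x)| ≤ κ * |y - x|) →
      ∀ τ, Metric.closedBall τ C ⊆ U → Good R ζ τ := by
  obtain ⟨F, hF⟩ := exists_goodWindow R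
  obtain ⟨C, hC0, hC⟩ := act_far_finset (m := m) B F
  refine ⟨C, hC0, ?_⟩
  intro ζ ζ' U h1 h2 h3 τ h4
  have h5 := hC ζ ζ' U h1 h2 τ h4
  refine hF ℝ ℝ ζ' ζ τ τ ?_ (good_of_map_eq R (hslow ζ' h3) τ)
  intro g hg k hk hle
  rw [h5 g hg, h5 k hk]
  exact hle

/-- the exit argument -/
theorem exit_core {m : ℕ} (R : LocFam m m) (κ : ℝ)
    (hslow : ∀ ζ : Fin m → (ℝ ≃o ℝ),
      (∀ i x y, |(ζ i y - y) - (ζ i x - x)| ≤ κ * |y - x|) → R.map ℝ ζ = ζ)
    (D : ℝ → Fin m → ℝ) (ζ : ℝ → Fin m → (ℝ ≃o ℝ))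
    (hζ : ∀ s, 0 ≤ s → s ≤ 1 → ∀ i x, ζ s i x = x + s * D x i)
    (K : ℝ) (hK : ∀ i x y, |D y i - D x i| ≤ K * |y - x|)
    (B : ℝ) (hB : ∀ i x, |D x i| ≤ B)
    (L : ℝ) (Dp Dm : ℝ → Fin m → ℝ)
    (hp : ∀ i x, L ≤ x → D x i = Dp x i) (hmm : ∀ i x, x ≤ -L → D x i = Dm x i)
    (hpκ : ∀ i x y, |Dp y i - Dp x i| ≤ κ * |y - x|)
    (hmκ : ∀ i x y, |Dm y i - Dm x i| ≤ κ * |y - x|)
    (hpκ' : ∀ i x y, |Dp y i - Dp x i| ≤ (1/2) * |y - x|)
    (hmκ' : ∀ i x y, |Dm y i - Dm x i| ≤ (1/2) * |y - x|)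
    (hbad : ∃ τ, ¬ Good R (ζ 1) τ) (sa : ℝ) (hsa : 0 < sa) (hsa1 : sa ≤ 1) (hsaK : sa * K ≤ κ) :
    ∃ s₀, sa ≤ s₀ ∧ s₀ ≤ 1 ∧ ∃ (s τ : ℕ → ℝ) (τ' : ℝ), (∀ j, sa ≤ s j ∧ s j ≤ 1) ∧
      Tendsto s atTop (𝓝 s₀) ∧ Tendsto τ atTop (𝓝 τ') ∧
      (∀ j, ¬ Good R (ζ (s j)) (τ j)) ∧ ∀ t, Good R (ζ s₀) t := by
  have hconv : ∀ (α : Type) (l : Filter α) (s : α → ℝ) (s₀ : ℝ), (0 ≤ s₀) → (s₀ ≤ 1) →
      (∀ᶠ j in l, 0 ≤ s j ∧ s j ≤ 1) → Tendsto s l (𝓝 s₀) →
      ∀ i y, Tendsto (fun j => ζ (s j) i y) l (𝓝 (ζ s₀ i y)) := by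
    intro α l s s₀ h0 h1 hs hst i y
    rw [hζ s₀ h0 h1]
    have : Tendsto (fun j => y + s j * D y i) l (𝓝 (y + s₀ * D y i)) :=
      (hst.mul_const _).const_add _
    refine this.congr' ?_
    filter_upwards [hs] with j hj
    rw [hζ _ hj.1 hj.2]
  -- far away
  have hiso : ∀ (E : ℝ → Fin m → ℝ), (∀ i x y, |E y i - E x i| ≤ (1/2) * |y - x|) →
      ∀ s, 0 ≤ s → s ≤ 1 → ∃ ζ' : Fin m → (ℝ ≃o ℝ), ∀ i x, ζ' i x = x + s * E x i := by
    intro E hE s h0 h1
    have : ∀ i, ∃ e : ℝ ≃o ℝ, ∀ x, e x = x + s * E x i := by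
      intro i
      refine exists_iso (fun x => x + s * E x i) ?_ (1/2) (by norm_num) ?_
      · refine continuous_id.add (continuous_const.mul ?_)
        have : LipschitzWith (1/2) (fun x => E x i) := by
          refine LipschitzWith.of_dist_le_mul ?_
          intro x y
          rw [Real.dist_eq, Real.dist_eq]
          simpa using hE i y x
        exact this.continuous
      · intro x y hxy
        have h2 := hE i x y
        rw [abs_of_nonneg (sub_nonneg.2 hxy)] at h2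
        have h3 := neg_le_of_abs_le h2
        have h4 : 0 ≤ y - x := sub_nonneg.2 hxy
        have h5 : s * (E y i - E x i) ≥ -(1/2 * (y - x)) := by
          have h6 : s * (E y i - E x i) ≥ s * (-(1/2 * (y - x))) :=
            mul_le_mul_of_nonneg_left h3 h0
          nlinarith
        linarith
    choose ζ' hζ' using this
    exact ⟨ζ', hζ'⟩
  obtain ⟨C, hC0, hC⟩ := exists_farGood R κ hslow B
  have hκ0 : 0 ≤ κ := by
    rcases isEmpty_or_nonempty (Fin m) with he | ⟨⟨i⟩⟩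
    · exfalso
      obtain ⟨τ, hτ⟩ := hbad
      exact hτ (fun i => he.elim i)
    · have := hpκ i 0 1
      have h2 := abs_nonneg (Dp 1 i - Dp 0 i)
      simp at this
      linarith
  have hdisp : ∀ s, 0 ≤ s → s ≤ 1 → ∀ i u, |ζ s i u - u| ≤ B := by
    intro s h0 h1 i u
    rw [hζ s h0 h1]
    have h2 := hB i u
    have h3 : |u + s * D u i - u| = s * |D u i| := by
      rw [add_sub_cancel_left, abs_mul, abs_of_nonneg h0]
    rw [h3]
    nlinarith [abs_nonneg (D u i)]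
  have hslowE : ∀ (E : ℝ → Fin m → ℝ), (∀ i x y, |E y i - E x i| ≤ κ * |y - x|) →
      ∀ s, 0 ≤ s → s ≤ 1 → ∀ ζ' : Fin m → (ℝ ≃o ℝ), (∀ i x, ζ' i x = x + s * E x i) →
      ∀ i x y, |(ζ' i y - y) - (ζ' i x - x)| ≤ κ * |y - x| := by
    intro E hE s h0 h1 ζ' hζ' i x y
    rw [hζ', hζ', add_sub_cancel_left, add_sub_cancel_left, ← mul_sub, abs_mul,
      abs_of_nonneg h0]
    have := hE i x y
    nlinarith [abs_nonneg (E y i - E x i)]
  have hfar : ∀ s, 0 ≤ s → s ≤ 1 → ∀ τ, L + C ≤ |τ| → Good R (ζ s) τ := by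
    intro s h0 h1 τ hτ
    rcases le_or_gt 0 τ with hpos | hneg
    · rw [abs_of_nonneg hpos] at hτ
      obtain ⟨ζ', hζ'⟩ := hiso Dp hpκ' s h0 h1
      refine hC (ζ s) ζ' (Set.Ici L) ?_ (hdisp s h0 h1) (hslowE Dp hpκ s h0 h1 ζ' hζ') τ ?_
      · intro i u hu
        rw [hζ s h0 h1, hζ', hp i u hu]
      · intro u hu
        rw [Metric.mem_closedBall, Real.dist_eq, abs_le] at hu
        rw [Set.mem_Ici]
        linarith
    · rw [abs_of_neg hneg] at hτ
      obtain ⟨ζ', hζ'⟩ := hiso Dm hmκ' s h0 h1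
      refine hC (ζ s) ζ' (Set.Iic (-L)) ?_ (hdisp s h0 h1) (hslowE Dm hmκ s h0 h1 ζ' hζ') τ ?_
      · intro i u hu
        rw [hζ s h0 h1, hζ', hmm i u hu]
      · intro u hu
        rw [Metric.mem_closedBall, Real.dist_eq, abs_le] at hu
        rw [Set.mem_Iic]
        linarith
  -- the set of bad times
  let Bd : Set ℝ := {s | sa ≤ s ∧ s ≤ 1 ∧ ∃ τ, ¬ Good R (ζ s) τ}
  have hne : Bd.Nonempty := ⟨1, hsa1, le_rfl, hbad⟩
  have hbdd : BddBelow Bd := ⟨sa, fun s hs => hs.1⟩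
  have hs0a : sa ≤ sInf Bd := le_csInf hne fun s hs => hs.1
  have hs01 : sInf Bd ≤ 1 := csInf_le hbdd ⟨hsa1, le_rfl, hbad⟩
  have hgood : ∀ t, Good R (ζ (sInf Bd)) t := by
    intro t
    by_contra hb
    rcases hs0a.lt_or_eq with hlt | heq
    · have h1 : ∀ᶠ s in 𝓝[<] (sInf Bd), sa < s ∧ s < sInf Bd := by
        have h2 : ∀ᶠ s in 𝓝 (sInf Bd), sa < s := lt_mem_nhds hlt
        filter_upwards [nhdsWithin_le_nhds h2, self_mem_nhdsWithin] with s h3 h4
        exact ⟨h3, h4⟩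
      have h5 := eventually_bad R (l := 𝓝[<] (sInf Bd)) (ζ := fun s => ζ s)
        (ζ₀ := ζ (sInf Bd)) (hconv ℝ _ (fun s => s) _ (hsa.le.trans hs0a) hs01
          (by
            filter_upwards [h1] with s hs
            exact ⟨(hsa.trans hs.1).le, hs.2.le.trans hs01⟩)
          (tendsto_id.mono_left nhdsWithin_le_nhds))
        (x := fun _ => t) tendsto_const_nhds hb
      obtain ⟨s, hs1, hs2⟩ := (h1.and h5).exists
      have : sInf Bd ≤ s := csInf_le hbdd ⟨hs1.1.le, hs1.2.le.trans hs01, t, hs2⟩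
      exact absurd hs1.2 (not_lt.2 this)
    · apply hb
      refine good_of_map_eq R (hslow _ ?_) t
      intro i x y
      rw [← heq, hζ sa hsa.le hsa1, hζ sa hsa.le hsa1, add_sub_cancel_left, add_sub_cancel_left,
        ← mul_sub, abs_mul, abs_of_nonneg hsa.le]
      calc sa * |D y i - D x i| ≤ sa * (K * |y - x|) :=
            mul_le_mul_of_nonneg_left (hK i x y) hsa.le
        _ = (sa * K) * |y - x| := by ring
        _ ≤ κ * |y - x| := mul_le_mul_of_nonneg_right hsaK (abs_nonneg _)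
  obtain ⟨s, -, hs1, hs2⟩ := exists_seq_tendsto_sInf hne hbdd
  choose hs3 hs4 τ hτ using hs2
  have hτC : ∀ j, τ j ∈ Set.Icc (-(L + C)) (L + C) := by
    intro j
    have : |τ j| < L + C := by
      by_contra hc
      exact hτ j (hfar (s j) (hsa.le.trans (hs3 j)) (hs4 j) (τ j) (not_lt.1 hc))
    rw [abs_lt] at this
    exact ⟨this.1.le, this.2.le⟩
  obtain ⟨τ', -, φ, hφ, hφ'⟩ := isCompact_Icc.tendsto_subseq hτC
  exact ⟨sInf Bd, hs0a, hs01, s ∘ φ, τ ∘ φ, τ', fun j => ⟨hs3 _, hs4 _⟩,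
    hs1.comp hφ.tendsto_atTop, hφ', fun j => hτ _, hgood⟩

theorem rank_le_two {m : ℕ} (ζ : Fin m → (ℝ ≃o ℝ))
    (hcount : ∀ (V : Finset ℝ) (E : Finset (Fin m × ℝ)), (∀ e ∈ E, e.2 ∈ V ∧ ζ e.1 e.2 ∈ V) →
      ∀ Q : Finset ℚ, (∀ q ∈ Q, (q : ℝ) ∈ V) → E.card + Q.card ≤ V.card + 1)
    (t : ℝ) (k : ℕ) (γ : Fin k → stab ζ t) (χ : Fin k → (stab ζ t →* Multiplicative ℤ))
    (hχ : ∀ i j, χ i (γ j) = if i = j then Multiplicative.ofAdd 1 else 1) : k ≤ 2 := by
  classical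
  let _ := actMul ζ
  have hst : stab ζ t = MulAction.stabilizer (FreeGroup (Fin m)) t := by
    ext g
    exact Iff.rfl
  obtain ⟨V, E, h1, h2⟩ := Pool.Agent.Helper8.GraphCount.graphCount (X := ℝ) t k
    (fun j => MulEquiv.subgroupCongr hst (γ j))
    (fun j => (χ j).comp (MulEquiv.subgroupCongr hst.symm).toMonoidHom) (by
      intro i j
      rw [← hχ i j]
      rfl)
  have h3 := hcount V E (by
    intro e he
    exact h1 e he) ∅ (by simp)
  simp at h3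
  omega

/-- EXIT -/
theorem exitPath {m : ℕ} (hm : 2 ≤ m) (R : LocFam m m)
    (hslow : ∃ κ : ℝ, 0 < κ ∧ ∀ ζ : Fin m → (ℝ ≃o ℝ),
      (∀ i x y, |(ζ i y - y) - (ζ i x - x)| ≤ κ * |y - x|) → R.map ℝ ζ = ζ)
    (hbad : ∃ (Ω : Type) (_ : LinearOrder Ω) (z : Fin m → (Ω ≃o Ω)) (x : Ω), ¬ Good R z x) :
    ∃ (ζ : ℕ → Fin m → (ℝ ≃o ℝ)) (τ : ℕ → ℝ) (ζ' : Fin m → (ℝ ≃o ℝ)) (τ' : ℝ),
      (∀ j, ¬ Good R (ζ j) (τ j)) ∧ R.map ℝ ζ' = ζ' ∧
      (∀ g, Filter.Tendsto (fun j => act (ζ j) g (τ j)) Filter.atTop (nhds (act ζ' g τ'))) ∧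
      (∀ t, ∃ i, ζ' i t ≠ t) ∧
      (∀ t (k : ℕ) (γ : Fin k → stab ζ' t) (χ : Fin k → (stab ζ' t →* Multiplicative ℤ)),
        (∀ i j, χ i (γ j) = if i = j then Multiplicative.ofAdd 1 else 1) → k ≤ 2) ∧
      (∀ a b : ℝ, a < b → ∃ t, a < t ∧ t < b ∧ stab ζ' t = ⊥) := by
  obtain ⟨κ, hκ0, hκ⟩ := hslow
  obtain ⟨Ω, hΩ, z, x, hb⟩ := hbad
  obtain ⟨F, hF⟩ := exists_goodWindow R
  obtain ⟨Φ, hΦ, hreal⟩ := exists_realise z x F
  have hne : Nonempty (Fin m) := ⟨⟨0, by omega⟩⟩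
  choose h1 h2 h3 using hΦ
  choose η' hη'0 hη' using h1
  choose K' hK'0 hK' using h2
  choose L' c₁ c₂ hL' using h3
  obtain ⟨i₀, hi₀⟩ := Finite.exists_min η'
  obtain ⟨i₁, hi₁⟩ := Finite.exists_max K'
  obtain ⟨i₂, hi₂⟩ := Finite.exists_max (fun i => |L' i|)
  set η := η' i₀ with hηdef
  set K₀ := K' i₁ with hK₀def
  set L := |L' i₂| with hLdef
  have hη0 : 0 < η := hη'0 i₀
  have hK0 : 0 < K₀ := hK'0 i₁
  have hη : ∀ i x y, x ≤ y → η * (y - x) ≤ Φ i y - Φ i x := by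
    intro i x y hxy
    exact (mul_le_mul_of_nonneg_right (hi₀ i) (sub_nonneg.2 hxy)).trans (hη' i x y hxy)
  have hK : ∀ i x y, |(Φ i y - y) - (Φ i x - x)| ≤ K₀ * |y - x| := by
    intro i x y
    exact (hK' i x y).trans (mul_le_mul_of_nonneg_right (hi₁ i) (abs_nonneg _))
  have hL1 : ∀ i x, x ≤ -L → Φ i x = x + c₁ i := by
    intro i x hx
    refine (hL' i x).1 ?_
    have := hi₂ i
    have h4 := le_abs_self (L' i)
    beta_reduce at this
    linarith
  have hL2 : ∀ i x, L ≤ x → Φ i x = x + c₂ i := by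
    intro i x hx
    refine (hL' i x).2 ?_
    have := hi₂ i
    have h4 := le_abs_self (L' i)
    beta_reduce at this
    linarith
  let D₀ : ℝ → Fin m → ℝ := fun x i => Φ i x - x
  have hD₀K : ∀ i x y, |D₀ y i - D₀ x i| ≤ K₀ * |y - x| := hK
  have hD₀L : LipschitzWith K₀.toNNReal D₀ := by
    refine LipschitzWith.of_dist_le_mul ?_
    intro x y
    rw [dist_pi_le_iff (by positivity)]
    intro i
    rw [Real.dist_eq, Real.dist_eq, Real.coe_toNNReal _ hK0.le]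
    exact hD₀K i y x
  let κφ : ℝ := min (min κ (1/2)) (η/2)
  have hκφ0 : 0 < κφ := lt_min (lt_min hκ0 (by norm_num)) (by linarith)
  have hκφ1 : κφ ≤ κ := (min_le_left _ _).trans (min_le_left _ _)
  have hκφ2 : κφ ≤ 1/2 := (min_le_left _ _).trans (min_le_right _ _)
  have hκφ3 : κφ ≤ η/2 := min_le_right _ _
  let Kt : ℝ := K₀ + κφ
  have hKt : 0 < Kt := by positivity
  let sa : ℝ := min 1 (κ / Kt)
  have hsa0 : 0 < sa := lt_min one_pos (by positivity)
  have hsa1 : sa ≤ 1 := min_le_left _ _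
  have hsaK : sa * Kt ≤ κ := by
    have : sa ≤ κ / Kt := min_le_right _ _
    calc sa * Kt ≤ κ / Kt * Kt := mul_le_mul_of_nonneg_right this hKt.le
      _ = κ := by field_simp
  have hgen : ∀ k : ℕ, ∃ φ : ℝ → Fin m → ℝ, (∀ t i, |φ t i| ≤ 1 / ((k : ℝ) + 1)) ∧
      (∀ t t' i, |φ t i - φ t' i| ≤ κφ * |t - t'|) ∧
      (∀ t, ∃ i, D₀ t i + φ t i ≠ 0) ∧
      ∀ s : ℝ, sa ≤ s → s ≤ 1 → ∀ (V : Finset ℝ) (E : Finset (Fin m × ℝ)),
        (∀ e ∈ E, e.2 ∈ V ∧ e.2 + s * (D₀ e.2 e.1 + φ e.2 e.1) ∈ V) →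
        ∀ Q : Finset ℚ, (∀ q ∈ Q, (q : ℝ) ∈ V) → E.card + Q.card ≤ V.card + 1 := fun k =>
    generic m hm D₀ K₀.toNNReal hD₀L sa κφ (1 / ((k : ℝ) + 1)) hsa0 hκφ0 (by positivity)
  choose φ hφ1 hφ2 hφ3 hφ4 using hgen
  -- isomorphisms
  have hcontD : ∀ k i, Continuous (fun x => D₀ x i + φ k x i) := by
    intro k i
    have h1 : LipschitzWith K₀.toNNReal (fun x => D₀ x i) := by
      refine LipschitzWith.of_dist_le_mul ?_
      intro x y
      rw [Real.dist_eq, Real.dist_eq, Real.coe_toNNReal _ hK0.le]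
      exact hD₀K i y x
    have h2 : LipschitzWith κφ.toNNReal (fun x => φ k x i) := by
      refine LipschitzWith.of_dist_le_mul ?_
      intro x y
      rw [Real.dist_eq, Real.dist_eq, Real.coe_toNNReal _ hκφ0.le]
      exact hφ2 k x y i
    exact h1.continuous.add h2.continuous
  have hexp : ∀ k i x y, x ≤ y → (η/2) * (y - x) ≤
      (y + (D₀ y i + φ k y i)) - (x + (D₀ x i + φ k x i)) := by
    intro k i x y hxy
    have h1 := hη i x y hxy
    have h2 := hφ2 k y x i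
    rw [abs_of_nonneg (sub_nonneg.2 hxy)] at h2
    have h3 := neg_le_of_abs_le h2
    have h4 : κφ * (y - x) ≤ η/2 * (y - x) :=
      mul_le_mul_of_nonneg_right hκφ3 (sub_nonneg.2 hxy)
    simp only [D₀]
    linarith
  have hiso : ∀ k s, 0 ≤ s → s ≤ 1 → ∃ e : Fin m → (ℝ ≃o ℝ),
      ∀ i x, e i x = x + s * (D₀ x i + φ k x i) := by
    intro k s h0 h1
    have : ∀ i, ∃ e : ℝ ≃o ℝ, ∀ x, e x = x + s * (D₀ x i + φ k x i) := by
      intro i
      refine exists_iso (fun x => x + s * (D₀ x i + φ k x i))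
        (continuous_id.add (continuous_const.mul (hcontD k i))) (min 1 (η/2))
        (lt_min one_pos (by linarith)) ?_
      intro x y hxy
      have h2 := hexp k i x y hxy
      have h3 : 0 ≤ y - x := sub_nonneg.2 hxy
      have h4 : min 1 (η/2) * (y - x) ≤ 1 * (y - x) :=
        mul_le_mul_of_nonneg_right (min_le_left _ _) h3
      have h5 : min 1 (η/2) * (y - x) ≤ η/2 * (y - x) :=
        mul_le_mul_of_nonneg_right (min_le_right _ _) h3
      have h6 : s * (min 1 (η/2) * (y - x)) ≤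
          s * ((y + (D₀ y i + φ k y i)) - (x + (D₀ x i + φ k x i))) :=
        mul_le_mul_of_nonneg_left (h5.trans h2) h0
      have h7 : (1 - s) * (min 1 (η/2) * (y - x)) ≤ (1 - s) * (1 * (y - x)) :=
        mul_le_mul_of_nonneg_left h4 (by linarith)
      nlinarith
    choose e he using this
    exact ⟨e, he⟩
  -- the limit action is bad
  have hiso0 : ∃ e : Fin m → (ℝ ≃o ℝ), ∀ i x, e i x = Φ i x := by
    have : ∀ i, ∃ e : ℝ ≃o ℝ, ∀ x, e x = Φ i x := by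
      intro i
      refine exists_iso (Φ i) ?_ η hη0 (hη i)
      have h1 : LipschitzWith K₀.toNNReal (fun x => D₀ x i) := by
        refine LipschitzWith.of_dist_le_mul ?_
        intro x y
        rw [Real.dist_eq, Real.dist_eq, Real.coe_toNNReal _ hK0.le]
        exact hD₀K i y x
      have h2 : Φ i = fun x => x + D₀ x i := by
        funext x
        simp only [D₀]
        ring
      rw [h2]
      exact continuous_id.add h1.continuous
    choose e he using this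
    exact ⟨e, he⟩
  obtain ⟨e₀, he₀⟩ := hiso0
  have hbad0 : ¬ Good R e₀ 0 := by
    intro hg
    exact hb (hF ℝ Ω e₀ z 0 x (hreal e₀ he₀) hg)
  have h11 : ∀ k, ∃ e : Fin m → (ℝ ≃o ℝ), ∀ i x, e i x = x + 1 * (D₀ x i + φ k x i) :=
    fun k => hiso k 1 zero_le_one le_rfl
  choose e he using h11
  have hconv : ∀ i y, Tendsto (fun k => e k i y) atTop (𝓝 (e₀ i y)) := by
    intro i y
    have h1 : ∀ k, e k i y = e₀ i y + φ k y i := by
      intro k
      rw [he, he₀]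
      simp only [D₀]
      ring
    have h2 : Tendsto (fun k => φ k y i) atTop (𝓝 0) := by
      refine squeeze_zero_norm (fun k => ?_) tendsto_one_div_add_atTop_nhds_zero_nat
      rw [Real.norm_eq_abs]
      exact hφ1 k y i
    have h3 := h2.const_add (e₀ i y)
    rw [add_zero] at h3
    refine h3.congr ?_
    intro k
    rw [h1]
  obtain ⟨k, hk⟩ := (eventually_bad R hconv (tendsto_const_nhds (x := (0 : ℝ))) hbad0).exists
  -- now fix k
  have hz : ∀ s, ∃ e : Fin m → (ℝ ≃o ℝ), 0 ≤ s → s ≤ 1 →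
      ∀ i x, e i x = x + s * (D₀ x i + φ k x i) := by
    intro s
    by_cases hs : 0 ≤ s ∧ s ≤ 1
    · obtain ⟨e, he⟩ := hiso k s hs.1 hs.2
      exact ⟨e, fun _ _ => he⟩
    · exact ⟨e₀, fun h1 h2 => absurd ⟨h1, h2⟩ hs⟩
  choose ζ hζ using hz
  have hζ1 : ζ 1 = e k := by
    funext i
    ext x
    rw [hζ 1 zero_le_one le_rfl, he]
  -- bounds
  obtain ⟨i₃, hi₃⟩ := Finite.exists_max (fun i => |c₁ i| + |c₂ i| + |D₀ 0 i| + K₀ * L)
  set B₀ := |c₁ i₃| + |c₂ i₃| + |D₀ 0 i₃| + K₀ * L with hB₀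
  have hL0 : 0 ≤ L := abs_nonneg _
  have hKL : 0 ≤ K₀ * L := by positivity
  have hBb : ∀ i x, |D₀ x i + φ k x i| ≤ B₀ + 1 := by
    intro i x
    have h1 : |D₀ x i| ≤ B₀ := by
      refine le_trans ?_ (hi₃ i)
      rcases le_or_gt x (-L) with h | h
      · have : D₀ x i = c₁ i := by
          simp only [D₀]
          rw [hL1 i x h]
          ring
        rw [this]
        linarith [abs_nonneg (c₂ i), abs_nonneg (D₀ 0 i)]
      · rcases le_or_gt L x with h' | h'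
        · have : D₀ x i = c₂ i := by
            simp only [D₀]
            rw [hL2 i x h']
            ring
          rw [this]
          linarith [abs_nonneg (c₁ i), abs_nonneg (D₀ 0 i)]
        · have h4 := hD₀K i 0 x
          rw [sub_zero] at h4
          have h5 : |x| ≤ L := by
            rw [abs_le]
            exact ⟨h.le, h'.le⟩
          have h6 : K₀ * |x| ≤ K₀ * L := mul_le_mul_of_nonneg_left h5 hK0.le
          have h7 := abs_add_le (D₀ x i - D₀ 0 i) (D₀ 0 i)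
          rw [sub_add_cancel] at h7
          linarith [abs_nonneg (c₁ i), abs_nonneg (c₂ i)]
    have h2 : |φ k x i| ≤ 1 := by
      refine (hφ1 k x i).trans ?_
      rw [div_le_one (by positivity)]
      linarith [(Nat.cast_nonneg k : (0 : ℝ) ≤ k)]
    have := abs_add_le (D₀ x i) (φ k x i)
    linarith
  obtain ⟨s₀, hs1, hs2, s, τ, τ', hs3, hs4, hτ, hbad', hgood⟩ := exit_core R κ hκ
    (fun x i => D₀ x i + φ k x i) ζ hζ Kt (by
      intro i x y
      have h4 := hD₀K i x y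
      have h5 := hφ2 k y x i
      have h6 := abs_add_le (D₀ y i - D₀ x i) (φ k y i - φ k x i)
      have h7 : D₀ y i + φ k y i - (D₀ x i + φ k x i) =
        D₀ y i - D₀ x i + (φ k y i - φ k x i) := by ring
      rw [h7]
      have h8 : Kt * |y - x| = K₀ * |y - x| + κφ * |y - x| := by
        simp only [Kt]
        ring
      linarith) (B₀ + 1) hBb L (fun x i => c₂ i + φ k x i) (fun x i => c₁ i + φ k x i) (by
      intro i x hx
      simp only [D₀]
      rw [hL2 i x hx]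
      ring) (by
      intro i x hx
      simp only [D₀]
      rw [hL1 i x hx]
      ring) (by
      intro i x y
      rw [add_sub_add_left_eq_sub]
      exact (hφ2 k y x i).trans (mul_le_mul_of_nonneg_right hκφ1 (abs_nonneg _))) (by
      intro i x y
      rw [add_sub_add_left_eq_sub]
      exact (hφ2 k y x i).trans (mul_le_mul_of_nonneg_right hκφ1 (abs_nonneg _))) (by
      intro i x y
      rw [add_sub_add_left_eq_sub]
      exact (hφ2 k y x i).trans (mul_le_mul_of_nonneg_right hκφ2 (abs_nonneg _))) (by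
      intro i x y
      rw [add_sub_add_left_eq_sub]
      exact (hφ2 k y x i).trans (mul_le_mul_of_nonneg_right hκφ2 (abs_nonneg _)))
    ⟨0, by rw [hζ1]; exact hk⟩ sa hsa0 hsa1 hsaK
  have hs0 : 0 ≤ s₀ := hsa0.le.trans hs1
  have hcount : ∀ (V : Finset ℝ) (E : Finset (Fin m × ℝ)),
      (∀ e ∈ E, e.2 ∈ V ∧ ζ s₀ e.1 e.2 ∈ V) →
      ∀ Q : Finset ℚ, (∀ q ∈ Q, (q : ℝ) ∈ V) → E.card + Q.card ≤ V.card + 1 := by
    intro V E hE
    refine hφ4 k s₀ hs1 hs2 V E ?_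
    intro e he
    refine ⟨(hE e he).1, ?_⟩
    have := (hE e he).2
    rwa [hζ s₀ hs0 hs2] at this
  refine ⟨fun j => ζ (s j), τ, ζ s₀, τ', hbad', map_eq_of_good R hgood, ?_, ?_, ?_,
    dense_trivial (ζ s₀) hcount⟩
  · intro g
    refine tendsto_act ?_ hτ g
    intro i y
    rw [hζ s₀ hs0 hs2]
    have h4 : Tendsto (fun j => y + s j * (D₀ y i + φ k y i)) atTop
        (𝓝 (y + s₀ * (D₀ y i + φ k y i))) := (hs4.mul_const _).const_add _
    refine h4.congr ?_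
    intro j
    rw [hζ (s j) (hsa0.le.trans (hs3 j).1) (hs3 j).2]
  · intro t
    obtain ⟨i, hi⟩ := hφ3 k t
    refine ⟨i, ?_⟩
    rw [hζ s₀ hs0 hs2]
    intro h
    have h4 : s₀ * (D₀ t i + φ k t i) = 0 := by linarith
    rcases mul_eq_zero.1 h4 with h5 | h5
    · linarith
    · exact hi h5
  · intro t k' γ χ hχ
    exact rank_le_two (ζ s₀) hcount t k' γ χ hχ

end Pool.Agent.Helper9.Hopf
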